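import Pool.Agent.Work.MP_156639_an.Interface

/-!
# MP_156639_an, block N: constants of the elements of `SS`
-/

set_option autoImplicit false

open scoped BigOperators
open Filter Topology

namespace Pool.Agent.MP156639

/-! ### variation -/

theorem TVle.zero : TVle 0 (fun _ => 0) := by
  intro ms _ K
  simp

theorem TVle.const (c : ℝ) : TVle 0 (fun _ => c) := by
  intro ms _ K
  simp

theorem TVle.mono {V V' : ℝ} {x : ℕ → ℝ} (h : TVle V x) (hV : V ≤ V') : TVle V' x :=
  fun ms hms K => (h ms hms K).trans hV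

theorem TVle.add {V V' : ℝ} {x y : ℕ → ℝ} (h : TVle V x) (h' : TVle V' y) :
    TVle (V + V') (fun m => x m + y m) := by
  intro ms hms K
  calc ∑ i ∈ Finset.range K, |(x (ms (i + 1)) + y (ms (i + 1))) - (x (ms i) + y (ms i))|
      ≤ ∑ i ∈ Finset.range K, (|x (ms (i + 1)) - x (ms i)| + |y (ms (i + 1)) - y (ms i)|) := by
        apply Finset.sum_le_sum
        intro i _
        rw [show (x (ms (i + 1)) + y (ms (i + 1))) - (x (ms i) + y (ms i)) =
          (x (ms (i + 1)) - x (ms i)) + (y (ms (i + 1)) - y (ms i)) by ring]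
        exact abs_add_le _ _
    _ = _ := Finset.sum_add_distrib
    _ ≤ V + V' := add_le_add (h ms hms K) (h' ms hms K)

theorem TVle.smul {V : ℝ} {x : ℕ → ℝ} (h : TVle V x) (c : ℝ) :
    TVle (|c| * V) (fun m => c * x m) := by
  intro ms hms K
  calc ∑ i ∈ Finset.range K, |c * x (ms (i + 1)) - c * x (ms i)|
      = |c| * ∑ i ∈ Finset.range K, |x (ms (i + 1)) - x (ms i)| := by
        rw [Finset.mul_sum]
        apply Finset.sum_congr rfl
        intro i _
        rw [← mul_sub, abs_mul]
    _ ≤ |c| * V := mul_le_mul_of_nonneg_left (h ms hms K) (abs_nonneg _)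

/-- an antitone function with values in `[0,1]` has variation at most `1` -/
theorem TVle.of_antitone {x : ℕ → ℝ} (hx : Antitone x) (h0 : ∀ m, 0 ≤ x m) (h1 : ∀ m, x m ≤ 1) :
    TVle 1 x := by
  intro ms hms K
  have h : ∑ i ∈ Finset.range K, |x (ms (i + 1)) - x (ms i)| = x (ms 0) - x (ms K) := by
    induction K with
    | zero => simp
    | succ K ih =>
      rw [Finset.sum_range_succ, ih]
      have h2 : x (ms (K + 1)) ≤ x (ms K) := hx (hms (Nat.le_succ K))
      rw [abs_of_nonpos (by linarith)]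
      ring
  rw [h]
  linarith [h0 (ms K), h1 (ms 0)]

theorem TVle.congr {V : ℝ} {x y : ℕ → ℝ} (h : TVle V x) (hxy : ∀ m, y m = x m) : TVle V y := by
  have : y = x := funext hxy
  rw [this]; exact h

/-- indicator of an initial segment -/
theorem TVle.of_initial {P : ℕ → Prop} [DecidablePred P] (hP : ∀ a b, a ≤ b → P b → P a) :
    TVle 1 (fun a => if P a then (1 : ℝ) else 0) := by
  apply TVle.of_antitone
  · intro a b hab
    by_cases hb : P b
    · simp [hb, hP a b hab hb]
    · by_cases ha : P a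
      · simp [hb, ha]
      · simp [hb, ha]
  · intro m
    split_ifs <;> norm_num
  · intro m
    split_ifs <;> norm_num

/-- indicator of a subset with at most one element -/
theorem TVle.of_subsingleton {P : ℕ → Prop} [DecidablePred P] (hP : ∀ a b, P a → P b → a = b) :
    TVle 2 (fun a => if P a then (1 : ℝ) else 0) := by
  by_cases h : ∃ a, P a
  · obtain ⟨a, ha⟩ := h
    have h1 : TVle 1 (fun b => if b ≤ a then (1 : ℝ) else 0) :=
      TVle.of_initial (P := fun b => b ≤ a) fun b c hbc hc => hbc.trans hc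
    have h2 : TVle 1 (fun b => if b < a then (1 : ℝ) else 0) :=
      TVle.of_initial (P := fun b => b < a) fun b c hbc hc => lt_of_le_of_lt hbc hc
    have h3 := h1.add (h2.smul (-1))
    refine (h3.mono (by norm_num)).congr ?_
    intro b
    by_cases hb : P b
    · have : b = a := hP b a hb ha
      subst this
      simp [ha]
    · have hba : b ≠ a := fun h => hb (h ▸ ha)
      rw [if_neg hb]
      rcases lt_or_gt_of_ne hba with h4 | h4
      · rw [if_pos h4.le, if_pos h4]; ring
      · rw [if_neg (by omega), if_neg (by omega)]; ring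
  · have : ∀ b, ¬ P b := fun b hb => h ⟨b, hb⟩
    have h0 : (fun a => if P a then (1 : ℝ) else 0) = fun _ => 0 := by
      funext b
      rw [if_neg (this b)]
    rw [h0]
    exact TVle.zero.mono (by norm_num)

/-! ### tents -/

theorem near_station (N j : ℕ) : near N (2 * (N + 1) * j) = j := by
  unfold near
  rw [Nat.mul_add_div (by omega)]
  rw [Nat.div_eq_of_lt (by omega)]
  simp

theorem tent_station (N j : ℕ) : tent N (2 * (N + 1) * j) = 1 := by
  unfold tent
  rw [near_station]
  push_cast
  rw [sub_self]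
  simp

theorem ns_st {Ω : Type} (N : ℕ) (s : Ω × ℕ) : ns (st N s) = s := by
  unfold ns st
  ext
  · rfl
  · exact near_station N s.2

theorem tent_st {Ω : Type} (N : ℕ) (s : Ω × ℕ) : tent (st N s).1 (st N s).2.2 = 1 :=
  tent_station N s.2

theorem near_spec (N l : ℕ) :
    2 * (N + 1) * near N l ≤ l + (N + 1) ∧ l + (N + 1) < 2 * (N + 1) * near N l + 2 * (N + 1) := by
  unfold near
  have h1 := Nat.div_mul_le_self (l + (N + 1)) (2 * (N + 1))
  have h2 := Nat.lt_div_mul_add (a := l + (N + 1)) (b := 2 * (N + 1)) (by omega)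
  constructor
  · rw [mul_comm]; exact h1
  · rw [mul_comm (2 * (N + 1))]; exact h2

theorem abs_le_near (N l : ℕ) :
    |(l : ℝ) - 2 * ((N : ℝ) + 1) * (near N l : ℝ)| ≤ (N : ℝ) + 1 := by
  obtain ⟨h1, h2⟩ := near_spec N l
  have h1' : (2 * ((N : ℝ) + 1) * (near N l : ℝ)) ≤ (l : ℝ) + ((N : ℝ) + 1) := by exact_mod_cast h1
  have h2' : (l : ℝ) + ((N : ℝ) + 1) < 2 * ((N : ℝ) + 1) * (near N l : ℝ) + 2 * ((N : ℝ) + 1) := by
    exact_mod_cast h2
  rw [abs_le]
  constructor <;> linarith

theorem tent_nonneg (N l : ℕ) : 0 ≤ tent N l := by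
  unfold tent
  have h := abs_le_near N l
  have hN : (0 : ℝ) < (N : ℝ) + 1 := by positivity
  rw [sub_nonneg, div_le_one hN]
  exact h

theorem tent_le_one (N l : ℕ) : tent N l ≤ 1 := by
  unfold tent
  have hN : (0 : ℝ) < (N : ℝ) + 1 := by positivity
  have : 0 ≤ |(l : ℝ) - 2 * ((N : ℝ) + 1) * (near N l : ℝ)| / ((N : ℝ) + 1) := by positivity
  linarith

/-- neighbouring positions: same window and tents at distance `≤ 1/W`, or different windows and
the tents are `1/W` and `0`. -/
theorem near_succ (N l : ℕ) :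
    (near N (l + 1) = near N l ∧ ((N : ℝ) + 1) * |tent N l - tent N (l + 1)| ≤ 1) ∨
    (near N (l + 1) = near N l + 1 ∧ ((N : ℝ) + 1) * tent N l = 1 ∧ tent N (l + 1) = 0) := by
  obtain ⟨h1, h2⟩ := near_spec N l
  obtain ⟨h3, h4⟩ := near_spec N (l + 1)
  have hN : (0 : ℝ) < (N : ℝ) + 1 := by positivity
  set k := near N l with hk
  set k' := near N (l + 1) with hk'
  have hle : k ≤ k' := by
    rw [hk, hk']; unfold near
    exact Nat.div_le_div_right (by omega)
  by_cases hkk : k' = k
  · left
    refine ⟨hkk, ?_⟩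
    unfold tent
    rw [← hk, ← hk', hkk]
    rw [show (1 - |(l : ℝ) - 2 * ((N : ℝ) + 1) * (k : ℝ)| / ((N : ℝ) + 1)) -
      (1 - |((l + 1 : ℕ) : ℝ) - 2 * ((N : ℝ) + 1) * (k : ℝ)| / ((N : ℝ) + 1)) =
      (|((l + 1 : ℕ) : ℝ) - 2 * ((N : ℝ) + 1) * (k : ℝ)| -
        |(l : ℝ) - 2 * ((N : ℝ) + 1) * (k : ℝ)|) / ((N : ℝ) + 1) by ring]
    rw [abs_div, abs_of_pos hN, mul_div_cancel₀ _ hN.ne']
    refine (abs_abs_sub_abs_le_abs_sub _ _).trans ?_
    push_cast
    rw [show (l : ℝ) + 1 - 2 * ((N : ℝ) + 1) * (k : ℝ) - ((l : ℝ) - 2 * ((N : ℝ) + 1) * (k : ℝ)) = 1 by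
      ring]
    simp
  · right
    have hlt : k + 1 ≤ k' := by omega
    have h5 : 2 * (N + 1) * (k + 1) ≤ 2 * (N + 1) * k' := Nat.mul_le_mul_left _ hlt
    have h6 : 2 * (N + 1) * (k + 1) = 2 * (N + 1) * k + 2 * (N + 1) := by ring
    have h7 : l + 1 + (N + 1) = 2 * (N + 1) * (k + 1) := by omega
    have h8 : k' = k + 1 := by
      by_contra h
      have h9 : k + 2 ≤ k' := by omega
      have h10 : 2 * (N + 1) * (k + 2) ≤ 2 * (N + 1) * k' := Nat.mul_le_mul_left _ h9
      have h11 : 2 * (N + 1) * (k + 2) = 2 * (N + 1) * (k + 1) + 2 * (N + 1) := by ring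
      omega
    have h7' : (l : ℝ) + 1 + ((N : ℝ) + 1) = 2 * ((N : ℝ) + 1) * ((k : ℝ) + 1) := by
      exact_mod_cast h7
    refine ⟨h8, ?_, ?_⟩
    · unfold tent
      rw [← hk]
      rw [show (l : ℝ) - 2 * ((N : ℝ) + 1) * (k : ℝ) = (N : ℝ) by linarith]
      rw [abs_of_nonneg (by positivity)]
      field_simp
      ring
    · unfold tent
      rw [← hk', h8]
      push_cast
      rw [show (l : ℝ) + 1 - 2 * ((N : ℝ) + 1) * ((k : ℝ) + 1) = -((N : ℝ) + 1) by linarith]
      rw [abs_neg, abs_of_pos hN, div_self hN.ne']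
      ring

section
variable {Ω : Type} [LinearOrder Ω] (D : LD Ω)

theorem LD.inLad_lad_iff {β β' : Ω} (hβ' : NonMin β') (a : ℕ) :
    D.InLad β (D.lad β' a) ↔ ∃ a', D.lad β' a = D.lad β a' := by
  unfold LD.InLad
  constructor
  · rintro (h | h)
    · exfalso
      have h1 := D.lad_pos β' hβ' a
      rw [h] at h1
      simp at h1
    · exact h
  · exact fun h => Or.inr h

theorem LD.G_st (N N' : ℕ) {β β' : Ω} (hβ' : NonMin β') (a : ℕ) [Decidable (N' = N ∧ ∃ a', D.lad β' a = D.lad β a')] :
    D.G N β (st N' (D.lad β' a)) = if N' = N ∧ ∃ a', D.lad β' a = D.lad β a' then 1 else 0 := by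
  unfold LD.G
  rw [ns_st, D.inLad_lad_iff hβ', tent_st]
  have : (st N' (D.lad β' a)).1 = N' := rfl
  rw [this]
  congr

theorem LD.Nice.zero : D.Nice 0 (fun _ => 0) where
  pt := by simp
  link := by simp
  path := fun N β hβ => TVle.zero

theorem LD.Nice.mono' {D : LD Ω} {C C' : ℝ} {ψ : Vx Ω → ℝ} (h : D.Nice C ψ) (hC : C ≤ C') :
    D.Nice C' ψ where
  pt := fun v => (h.pt v).trans hC
  link := fun N β l => (h.link N β l).trans hC
  path := fun N β hβ => (h.path N β hβ).mono hC

theorem LD.Nice.add' {D : LD Ω} {C C' : ℝ} {ψ ψ' : Vx Ω → ℝ} (h : D.Nice C ψ) (h' : D.Nice C' ψ') :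
    D.Nice (C + C') (fun v => ψ v + ψ' v) where
  pt := fun v => (abs_add_le _ _).trans (add_le_add (h.pt v) (h'.pt v))
  link := fun N β l => by
    have h1 := h.link N β l
    have h2 := h'.link N β l
    have h3 : |(ψ (N, β, l) + ψ' (N, β, l)) - (ψ (N, β, l + 1) + ψ' (N, β, l + 1))| ≤
        |ψ (N, β, l) - ψ (N, β, l + 1)| + |ψ' (N, β, l) - ψ' (N, β, l + 1)| := by
      rw [show (ψ (N, β, l) + ψ' (N, β, l)) - (ψ (N, β, l + 1) + ψ' (N, β, l + 1)) =
        (ψ (N, β, l) - ψ (N, β, l + 1)) + (ψ' (N, β, l) - ψ' (N, β, l + 1)) by ring]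
      exact abs_add_le _ _
    have h4 := mul_le_mul_of_nonneg_left h3 (by positivity : (0 : ℝ) ≤ (N : ℝ) + 1)
    rw [mul_add] at h4
    linarith
  path := fun N β hβ => (h.path N β hβ).add (h'.path N β hβ)

theorem LD.Nice.smul' {D : LD Ω} {C : ℝ} {ψ : Vx Ω → ℝ} (h : D.Nice C ψ) (c : ℝ) :
    D.Nice (|c| * C) (fun v => c * ψ v) where
  pt := fun v => by
    rw [abs_mul]
    exact mul_le_mul_of_nonneg_left (h.pt v) (abs_nonneg _)
  link := fun N β l => by
    rw [← mul_sub, abs_mul, ← mul_assoc, mul_comm _ |c|, mul_assoc]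
    exact mul_le_mul_of_nonneg_left (h.link N β l) (abs_nonneg _)
  path := fun N β hβ => (h.path N β hβ).smul c

open Classical in
theorem LD.nice_delta (v : Vx Ω) :
    D.Nice ((v.1 : ℝ) + 2) (fun w => if w = v then 1 else 0) where
  pt := fun w => by
    have : (0 : ℝ) ≤ (v.1 : ℝ) := by positivity
    split_ifs
    · rw [abs_one]; linarith
    · rw [abs_zero]; linarith
  link := fun N β l => by
    by_cases h1 : (N, β, l) = v
    · have h2 : (N, β, l + 1) ≠ v := by
        rw [← h1]; intro h; simp at h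
      rw [if_pos h1, if_neg h2]
      subst h1
      simp
    · by_cases h2 : (N, β, l + 1) = v
      · rw [if_neg h1, if_pos h2]
        subst h2
        simp
      · rw [if_neg h1, if_neg h2]
        simp
        positivity
  path := fun N β hβ => by
    have h0 : (0 : ℝ) ≤ (v.1 : ℝ) := by positivity
    refine (TVle.of_subsingleton (P := fun a => st N (D.lad β a) = v) ?_).mono (by linarith)
    intro a b ha hb
    have h1 : st N (D.lad β a) = st N (D.lad β b) := ha.trans hb.symm
    have h2 : D.lad β a = D.lad β b := by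
      rw [← ns_st N (D.lad β a), h1, ns_st]
    exact (D.lad_strict β hβ).injective (congrArg Prod.snd h2)

open Classical in
theorem LD.nice_G (N : ℕ) (β : Ω) (hβ : NonMin β) : D.Nice 1 (D.G N β) where
  pt := fun v => by
    unfold LD.G
    split_ifs
    · rw [abs_of_nonneg (tent_nonneg _ _)]; exact tent_le_one _ _
    · rw [abs_zero]; norm_num
  link := fun N' β' l => by
    unfold LD.G ns
    dsimp only
    rcases near_succ N' l with ⟨h1, h2⟩ | ⟨h1, h2, h3⟩
    · rw [h1]
      split_ifs
      · exact h2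
      · simp
    · rw [h1, h3]
      have h4 : |(if N' = N ∧ D.InLad β (β', near N' l) then tent N' l else 0) -
          (if N' = N ∧ D.InLad β (β', near N' l + 1) then (0 : ℝ) else 0)| ≤ tent N' l := by
        have h5 := tent_nonneg N' l
        split_ifs <;> simp [abs_of_nonneg h5, h5]
      have h5 := mul_le_mul_of_nonneg_left h4 (by positivity : (0 : ℝ) ≤ (N' : ℝ) + 1)
      linarith
  path := fun N' β' hβ' => by
    refine (TVle.of_initial (P := fun a => N' = N ∧ ∃ a', D.lad β' a = D.lad β a') ?_).congr ?_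
    · rintro a b hab ⟨h1, b', hb'⟩
      refine ⟨h1, ?_⟩
      obtain ⟨h2, h3⟩ := D.lad_tree β' β hβ' hβ b b' hb'
      exact ⟨a, h3 a hab⟩
    · intro a
      exact D.G_st N N' hβ' a

end

/-- Block N, first part. -/
theorem stmt_Nice : Stmt_Nice := by
  intro Ω _ D ψ hψ
  unfold LD.SS at hψ
  induction hψ using Submodule.span_induction with
  | mem f hf =>
    rcases hf with ⟨v, -, rfl⟩ | ⟨N, β, hβ, rfl⟩
    · exact ⟨_, by positivity, D.nice_delta v⟩
    · exact ⟨1, by norm_num, D.nice_G N β hβ⟩
  | zero => exact ⟨0, le_rfl, LD.Nice.zero D⟩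
  | add f g _ _ hf hg =>
    obtain ⟨C, hC, h⟩ := hf
    obtain ⟨C', hC', h'⟩ := hg
    exact ⟨C + C', by positivity, h.add' h'⟩
  | smul c f _ hf =>
    obtain ⟨C, hC, h⟩ := hf
    exact ⟨|c| * C, by positivity, h.smul' c⟩

/-- Block N, second part. -/
theorem stmt_TG : Stmt_TG := by
  classical
  intro Ω _ D ψ hψ x hx
  obtain ⟨M, hM⟩ := hx
  unfold LD.SS at hψ
  induction hψ using Submodule.span_induction with
  | mem f hf =>
    rcases hf with ⟨v, hv, rfl⟩ | ⟨N, β, hβ, rfl⟩
    · have h1 : tens (fun w => if w = v then 1 else 0) x = ∑ m ∈ Finset.range M,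
          x m • (fun p : Pt Ω => if p = (v, m) then (1 : ℝ) else 0) := by
        funext p
        obtain ⟨w, k⟩ := p
        unfold tens
        rw [Finset.sum_apply]
        simp only [Pi.smul_apply, smul_eq_mul, Prod.mk.injEq]
        by_cases hw : w = v
        · by_cases hk : k < M
          · rw [Finset.sum_eq_single k]
            · simp [hw]
            · intro b _ hb
              simp [hb.symm]
            · intro h; exact absurd (Finset.mem_range.2 hk) h
          · rw [hM k (by omega), mul_zero]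
            symm
            apply Finset.sum_eq_zero
            intro b hb
            rw [Finset.mem_range] at hb
            have : k ≠ b := by omega
            simp [this]
        · simp [hw]
      rw [h1]
      apply Submodule.sum_mem
      intro m _
      apply Submodule.smul_mem
      apply Submodule.subset_span
      left
      exact ⟨v, m, hv, rfl⟩
    · have h1 : tens (D.G N β) x = ∑ m ∈ Finset.range M,
          x m • (fun p : Pt Ω => if p.2 = m then D.G N β p.1 else 0) := by
        funext p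
        obtain ⟨w, k⟩ := p
        unfold tens
        rw [Finset.sum_apply]
        simp only [Pi.smul_apply, smul_eq_mul]
        by_cases hk : k < M
        · rw [Finset.sum_eq_single k]
          · simp [mul_comm]
          · intro b _ hb
            simp [hb.symm]
          · intro h; exact absurd (Finset.mem_range.2 hk) h
        · rw [hM k (by omega), mul_zero]
          symm
          apply Finset.sum_eq_zero
          intro b hb
          rw [Finset.mem_range] at hb
          have : k ≠ b := by omega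
          simp [this]
      rw [h1]
      apply Submodule.sum_mem
      intro m _
      apply Submodule.smul_mem
      apply Submodule.subset_span
      right
      exact ⟨N, β, m, hβ, rfl⟩
  | zero =>
    have h1 : tens (0 : Vx Ω → ℝ) x = 0 := by
      funext p; simp [tens]
    rw [h1]; exact Submodule.zero_mem _
  | add f g _ _ hf hg =>
    have h1 : tens (f + g) x = tens f x + tens g x := by
      funext p; simp [tens, add_mul]
    rw [h1]; exact Submodule.add_mem _ hf hg
  | smul c f _ hf =>
    have h1 : tens (c • f) x = c • tens f x := by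
      funext p; simp [tens, mul_assoc]
    rw [h1]; exact Submodule.smul_mem _ _ hf

theorem one_le_th (n : ℕ) : (1 : ℝ) ≤ (th n : ℝ) := by
  have : 1 ≤ th n := by
    unfold th
    exact Nat.one_le_iff_ne_zero.2 (Finset.prod_ne_zero_iff.2 fun i _ => Nat.factorial_ne_zero _)
  exact_mod_cast this

/-- the sum of the jumps over interleaved intervals is at most the variation -/
theorem TVle.interleave {V : ℝ} {x : ℕ → ℝ} (h : TVle V x) (a b : ℕ → ℕ)
    (hab : ∀ i, a i ≤ b i ∧ b i ≤ a (i + 1)) (K : ℕ) :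
    ∑ i ∈ Finset.range K, |x (a i) - x (b i)| ≤ V := by
  set ms : ℕ → ℕ := fun j => if j % 2 = 0 then a (j / 2) else b (j / 2) with hms
  have hmono : Monotone ms := by
    apply monotone_nat_of_le_succ
    intro j
    rw [hms]
    dsimp only
    rcases Nat.even_or_odd' j with ⟨k, rfl | rfl⟩
    · rw [if_pos (by omega), if_neg (by omega)]
      rw [show (2 * k) / 2 = k by omega, show (2 * k + 1) / 2 = k by omega]
      exact (hab k).1
    · rw [if_neg (by omega), if_pos (by omega)]
      rw [show (2 * k + 1) / 2 = k by omega, show (2 * k + 1 + 1) / 2 = k + 1 by omega]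
      exact (hab k).2
  have h1 := h ms hmono (2 * K)
  refine le_trans ?_ h1
  clear h1
  induction K with
  | zero => simp
  | succ K ih =>
    rw [Finset.sum_range_succ, show 2 * (K + 1) = 2 * K + 1 + 1 by ring, Finset.sum_range_succ,
      Finset.sum_range_succ]
    have h2 : ms (2 * K) = a K := by
      rw [hms]; dsimp only
      rw [if_pos (by omega), show (2 * K) / 2 = K by omega]
    have h3 : ms (2 * K + 1) = b K := by
      rw [hms]; dsimp only
      rw [if_neg (by omega), show (2 * K + 1) / 2 = K by omega]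
    rw [h2, h3, abs_sub_comm (x (b K)) (x (a K))]
    have h4 := abs_nonneg (x (ms (2 * K + 1 + 1)) - x (b K))
    linarith

/-- Block N, third part. -/
theorem stmt_BT : Stmt_BT := by
  intro Ω _ D C V B ψ x hψ hx hV hCB hlab
  refine ⟨?_, ?_, ?_, ?_⟩
  · rintro ⟨v, m⟩
    unfold tens
    rw [abs_mul]
    have h1 := hψ.pt v
    calc |ψ v| * |x m| ≤ |ψ v| * 1 := mul_le_mul_of_nonneg_left (hx m) (abs_nonneg _)
      _ ≤ B := by linarith
  · intro N β l m
    unfold tens
    dsimp only
    rw [← sub_mul, abs_mul, ← mul_assoc]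
    have h1 := hψ.link N β l
    have h2 : 0 ≤ ((N : ℝ) + 1) * |ψ (N, β, l) - ψ (N, β, l + 1)| := by positivity
    calc ((N : ℝ) + 1) * |ψ (N, β, l) - ψ (N, β, l + 1)| * |x m|
        ≤ ((N : ℝ) + 1) * |ψ (N, β, l) - ψ (N, β, l + 1)| * 1 :=
          mul_le_mul_of_nonneg_left (hx m) h2
      _ ≤ B := by linarith
  · intro n c hn v hv _ ms hms
    have hC0 : 0 ≤ C := (abs_nonneg _).trans (hψ.pt v)
    have hB0 : 0 ≤ B := hC0.trans hCB
    have hth := one_le_th n
    unfold tens
    dsimp only
    have h1 : ∑ i ∈ Finset.range (Kn n), |ψ v * x (ms (i + 1)) - ψ v * x (ms i)| =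
        |ψ v| * ∑ i ∈ Finset.range (Kn n), |x (ms (i + 1)) - x (ms i)| := by
      rw [Finset.mul_sum]
      apply Finset.sum_congr rfl
      intro i _
      rw [← mul_sub, abs_mul]
    rw [h1]
    have hsum0 : 0 ≤ ∑ i ∈ Finset.range (Kn n), |x (ms (i + 1)) - x (ms i)| :=
      Finset.sum_nonneg fun i _ => abs_nonneg _
    rcases hlab n c hn with h | h | h
    · rw [h v hv]
      simp only [abs_zero, zero_mul]
      positivity
    · calc |ψ v| * ∑ i ∈ Finset.range (Kn n), |x (ms (i + 1)) - x (ms i)|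
          ≤ C * ∑ i ∈ Finset.range (Kn n), |x (ms (i + 1)) - x (ms i)| :=
            mul_le_mul_of_nonneg_right (hψ.pt v) hsum0
        _ ≤ C * V := mul_le_mul_of_nonneg_left (hV ms hms _) hC0
        _ ≤ B * (th n : ℝ) := h
    · have h2 : ∑ i ∈ Finset.range (Kn n), |x (ms (i + 1)) - x (ms i)| ≤ 2 * (Kn n : ℝ) := by
        calc ∑ i ∈ Finset.range (Kn n), |x (ms (i + 1)) - x (ms i)|
            ≤ ∑ i ∈ Finset.range (Kn n), (2 : ℝ) := by
              apply Finset.sum_le_sum
              intro i _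
              refine (abs_sub _ _).trans ?_
              linarith [hx (ms (i + 1)), hx (ms i)]
          _ = 2 * (Kn n : ℝ) := by
              rw [Finset.sum_const, Finset.card_range, nsmul_eq_mul, mul_comm]
      calc |ψ v| * ∑ i ∈ Finset.range (Kn n), |x (ms (i + 1)) - x (ms i)|
          ≤ C * ∑ i ∈ Finset.range (Kn n), |x (ms (i + 1)) - x (ms i)| :=
            mul_le_mul_of_nonneg_right (hψ.pt v) hsum0
        _ ≤ C * (2 * (Kn n : ℝ)) := mul_le_mul_of_nonneg_left h2 hC0
        _ = 2 * C * (Kn n : ℝ) := by ring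
        _ ≤ B * (th n : ℝ) := h
  · intro n _ N β hβ a b m hab
    have hC0 : 0 ≤ C := (abs_nonneg _).trans (hψ.pt (N, β, 0))
    have hB0 : 0 ≤ B := hC0.trans hCB
    have hth := one_le_th n
    have h1 := (hψ.path N β hβ).interleave a b hab (Kn n)
    unfold tens
    dsimp only
    calc ∑ i ∈ Finset.range (Kn n),
          |ψ (st N (D.lad β (a i))) * x (m i) - ψ (st N (D.lad β (b i))) * x (m i)|
        ≤ ∑ i ∈ Finset.range (Kn n), |ψ (st N (D.lad β (a i))) - ψ (st N (D.lad β (b i)))| := by
          apply Finset.sum_le_sum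
          intro i _
          rw [← sub_mul, abs_mul]
          exact (mul_le_mul_of_nonneg_left (hx _) (abs_nonneg _)).trans (by rw [mul_one])
      _ ≤ C := h1
      _ ≤ B := hCB
      _ = B * 1 := (mul_one B).symm
      _ ≤ B * (th n : ℝ) := mul_le_mul_of_nonneg_left hth hB0

end Pool.Agent.MP156639
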